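import Mathlib

/-!
# Hodge classes on complex tori and on products of abelian varieties of CM type
-/

namespace Pool.Agent.H204R3.CM

open NumberField

/-- Let `T` be the tangent space at the origin of a complex torus `A` (a complex vector space), `W`
its rational homology `H_1(A, ℚ)` and `per : W → T` the inclusion. An alternating form `f` on `W`
with rational values, in variables indexed by `κ`, is an element of `H^{|κ|}(A, ℚ)`. It is a
*Hodge class* (that is, of type `(d, d)`, `2 d = |κ|`) if it extends to a real multilinear form on
`T` which is invariant under the multiplication by the complex numbers of absolute value `1`. -/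
def IsHodge {W T : Type*} [AddCommGroup W] [Module ℚ W] [AddCommGroup T] [Module ℂ T]
    (per : W →+ T) {κ : Type*} (f : W [⋀^κ]→ₗ[ℚ] ℚ) : Prop :=
  ∃ ψ : MultilinearMap ℝ (fun _ : κ => T) ℝ,
    (∀ v : κ → W, ψ (fun l => per (v l)) = f v) ∧
      ∀ z : ℂ, ‖z‖ = 1 → ∀ u : κ → T, ψ (fun l => z • u l) = ψ u

/-- A CM type on `E`: it contains exactly one embedding out of each pair of complex conjugate
embeddings. -/
def IsCMType {E : Type*} [Field E] (Φ : Set (E →+* ℂ)) : Prop :=
  ∀ φ : E →+* ℂ, φ ∈ Φ ↔ ComplexEmbedding.conjugate φ ∉ Φ

variable {ι J : Type*} {E : ι → Type*} [∀ i, Field (E i)]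

/-- The tangent space of the product, over `j : J`, of the abelian varieties of CM type
`(E (t j), Φ (t j))`. -/
abbrev Tan (Φ : ∀ i, Set (E i →+* ℂ)) (t : J → ι) : Type _ := ∀ j, Φ (t j) → ℂ

/-- The inclusion of the rational homology `∏ j, E (t j)` of this product into the tangent space:
the elements of the CM type are applied to the elements of the field. -/
def per (Φ : ∀ i, Set (E i →+* ℂ)) (t : J → ι) : (∀ j, E (t j)) →+ Tan Φ t where
  toFun w := fun j φ => φ.1 (w j)
  map_zero' := by
    funext j φ
    exact map_zero φ.1
  map_add' v w := by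
    funext j φ
    exact map_add φ.1 _ _

end Pool.Agent.H204R3.CM
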