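import Mathlib
import Pool.Agent.H925R2.Core

/-!
# A fixed vector modulo `r` in the space of relations
-/

namespace Pool.Agent.H204R3.CM

open MulAction Pool.Agent.H925R2

variable {R : Type*} [Fintype R] {inv : R → R} {G : Type*} [Group G] [Finite G] [MulAction G R]

/-- If an antisymmetric integral vector `c` is orthogonal to all the members of a `G`-stable set
`U` of antisymmetric integral vectors and is not zero, there is a nonzero antisymmetric vector `f`
modulo `r`, fixed by the Sylow `r`-subgroup `S`, which is orthogonal to `U` in the sense of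
half systems. -/
theorem exists_fixed [DecidableEq R]
    (hinv : ∀ x, inv (inv x) = x) (hG : ∀ (g : G) (x : R), g • inv x = inv (g • x))
    (r : ℕ) [Fact r.Prime] (S : Sylow r G) (U : Set (R → ℤ))
    (hUG : ∀ u ∈ U, ∀ g : G, (fun x => u (g • x)) ∈ U)
    (hUa : ∀ u ∈ U, ∀ x, u (inv x) = -u x)
    (c : R → ℤ) (hc : ∀ x, c (inv x) = -c x)
    (hrel : ∀ u ∈ U, ∑ x, c x * u x = 0) (hc0 : ∃ x, c x ≠ 0) :
    ∃ f : R → ZMod r, (∃ x, f x ≠ 0) ∧ (∀ x, f (inv x) = -f x) ∧
      (∀ (s : S) (x : R), f ((s : G) • x) = f x) ∧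
      ∀ u ∈ U, ∀ Φ : Finset R, IsHalf inv Φ → ∑ x ∈ Φ, f x * ((u x : ℤ) : ZMod r) = 0 := by
  classical
  obtain ⟨x₀, hx₀⟩ := hc0
  obtain ⟨c', hc1, hc2⟩ := Finset.extract_gcd (s := (Finset.univ : Finset R)) c ⟨x₀, Finset.mem_univ _⟩
  set d := Finset.univ.gcd c with hd
  have hd0 : d ≠ 0 := by
    intro h
    apply hx₀
    rw [hc1 x₀ (Finset.mem_univ _), h, zero_mul]
  have hc'anti : ∀ x, c' (inv x) = -c' x := by
    intro x
    have := hc x
    rw [hc1 x (Finset.mem_univ _), hc1 (inv x) (Finset.mem_univ _)] at this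
    apply mul_left_cancel₀ hd0
    rw [this]; ring
  have hc'rel : ∀ u ∈ U, ∑ x, c' x * u x = 0 := by
    intro u hu
    apply mul_left_cancel₀ hd0
    rw [mul_zero, Finset.mul_sum, ← hrel u hu]
    refine Finset.sum_congr rfl fun x _ => ?_
    rw [hc1 x (Finset.mem_univ _)]; ring
  have hc'half : ∀ u ∈ U, ∀ (Φ : Finset R), IsHalf inv Φ → ∑ x ∈ Φ, c' x * u x = 0 := by
    intro u hu Φ hΦ'
    have := hΦ'.sum_symm hinv (fun x => c' x * u x) (fun x => by
      simp only [hc'anti, hUa u hu]; ring)
    rw [hc'rel u hu] at this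
    omega
  have hnd : ∃ x, ¬ (r : ℤ) ∣ c' x := by
    by_contra hall
    push Not at hall
    have : (r : ℤ) ∣ Finset.univ.gcd c' := Finset.dvd_gcd fun x _ => hall x
    rw [hc2] at this
    have h2 := Int.isUnit_iff_natAbs_eq.1 (isUnit_of_dvd_one this)
    simp only [Int.natAbs_natCast] at h2
    exact (Fact.out : r.Prime).one_lt.ne' h2
  -- the space of relations mod r
  let W : AddSubgroup (R → ZMod r) :=
    { carrier := {f | (∀ x, f (inv x) = -f x) ∧
        ∀ u ∈ U, ∀ Φ : Finset R, IsHalf inv Φ → ∑ x ∈ Φ, f x * ((u x : ℤ) : ZMod r) = 0}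
      zero_mem' := by
        refine ⟨fun x => by simp, fun g _ Φ _ => by simp⟩
      add_mem' := by
        rintro a b ⟨ha1, ha2⟩ ⟨hb1, hb2⟩
        refine ⟨fun x => by simp only [Pi.add_apply, ha1, hb1]; ring, fun g hg Φ hh => ?_⟩
        simp only [Pi.add_apply, add_mul, Finset.sum_add_distrib, ha2 g hg Φ hh, hb2 g hg Φ hh,
          add_zero]
      neg_mem' := by
        rintro a ⟨ha1, ha2⟩
        refine ⟨fun x => by simp only [Pi.neg_apply, ha1], fun g hg Φ hh => ?_⟩
        simp only [Pi.neg_apply, neg_mul, Finset.sum_neg_distrib, ha2 g hg Φ hh, neg_zero] }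
  have hWsmul : ∀ (s : G) (f : R → ZMod r), f ∈ W → (fun x => f (s⁻¹ • x)) ∈ W := by
    rintro s f ⟨hf1, hf2⟩
    refine ⟨fun x => ?_, fun g hg Φ hh => ?_⟩
    · simp only [hG, hf1]
    · have h1 := hf2 _ (hUG g hg s) (Φ.image (fun x => s⁻¹ • x)) (by
        intro x
        simp only [Finset.mem_image, not_exists, not_and]
        constructor
        · rintro ⟨y, hy, rfl⟩ z hz hzy
          have : z = inv y := by
            have h := congrArg (fun t => s • t) hzy
            simpa [hG] using h
          rw [this] at hz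
          exact ((hh y).1 hy) hz
        · intro h
          refine ⟨s • x, ?_, by simp⟩
          rw [hh (s • x)]
          intro h'
          exact h _ h' (by rw [hG]; simp))
      rw [Finset.sum_image (by
        intro a _ b _ hab
        exact smul_left_cancel _ hab)] at h1
      simp only [smul_inv_smul] at h1
      exact h1
  let _ : MulAction S W :=
    { smul := fun s f => ⟨fun x => f.1 ((s : G)⁻¹ • x), hWsmul s f.1 f.2⟩
      one_smul := by
        intro f
        apply Subtype.ext
        funext x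
        change f.1 (((1 : S) : G)⁻¹ • x) = f.1 x
        simp
      mul_smul := by
        intro a b f
        apply Subtype.ext
        funext x
        change f.1 (((a * b : S) : G)⁻¹ • x) = f.1 ((b : G)⁻¹ • ((a : G)⁻¹ • x))
        rw [← mul_smul]
        simp }
  have hcW : (fun x => ((c' x : ℤ) : ZMod r)) ∈ W := by
    refine ⟨fun x => by simp [hc'anti], fun g hg Φ hh => ?_⟩
    have := hc'half g hg Φ hh
    have h2 := congrArg (fun t : ℤ => (t : ZMod r)) this
    simpa using h2
  have hWne : Nontrivial W := by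
    obtain ⟨x, hx⟩ := hnd
    refine ⟨⟨⟨_, hcW⟩, 0, fun h => hx ?_⟩⟩
    have h2 : (fun x => ((c' x : ℤ) : ZMod r)) = 0 := congrArg Subtype.val h
    have h3 := congrFun h2 x
    simpa [ZMod.intCast_zmod_eq_zero_iff_dvd] using h3
  have hWcard : r ∣ Nat.card W := by
    have h1 : Nat.card W ∣ r ^ (Fintype.card R) := by
      have := W.card_addSubgroup_dvd_card
      rwa [Nat.card_eq_fintype_card (α := R → ZMod r), Fintype.card_fun, ZMod.card] at this
    obtain ⟨m, hm, hm2⟩ := (Nat.dvd_prime_pow (Fact.out : r.Prime)).1 h1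
    rw [hm2]
    apply dvd_pow_self
    rintro rfl
    have h3 : 1 < Nat.card W := Finite.one_lt_card
    rw [hm2, pow_zero] at h3
    exact absurd h3 (lt_irrefl _)
  obtain ⟨f, hf, hf0⟩ := S.isPGroup'.exists_fixed_point_of_prime_dvd_card_of_fixed_point W hWcard
    (a := (0 : W)) (by
      intro s
      apply Subtype.ext
      funext x
      rfl)
  have hffix : ∀ (s : S) (x : R), f.1 ((s : G) • x) = f.1 x := by
    intro s x
    have h1 : s⁻¹ • f = f := hf s⁻¹
    have h2 := congrFun (congrArg Subtype.val h1) x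
    have h3 : f.1 ((((s⁻¹ : S) : G))⁻¹ • x) = f.1 x := h2
    simpa using h3
  refine ⟨f.1, ?_, f.2.1, hffix, f.2.2⟩
  by_contra hall
  push Not at hall
  apply hf0
  apply Subtype.ext
  funext x
  exact (hall x).symm

end Pool.Agent.H204R3.CM
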