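import Mathlib

/-!
# The Galois action on embeddings and the discriminant
-/

namespace Pool.Agent.H204R3.CM

open NumberField Module

noncomputable section

/-- The Galois group of `L` acts on the embeddings of `E` into `L`. -/
instance embAction (E L : Type*) [Field E] [Field L] [CharZero L] :
    MulAction (L ≃ₐ[ℚ] L) (E →+* L) where
  smul σ φ := (σ : L →+* L).comp φ
  one_smul φ := RingHom.ext fun _ => rfl
  mul_smul σ τ φ := RingHom.ext fun _ => rfl

theorem emb_smul_apply {E L : Type*} [Field E] [Field L] [CharZero L] (σ : L ≃ₐ[ℚ] L)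
    (φ : E →+* L) (x : E) : (σ • φ) x = σ (φ x) := rfl

instance emb_pretransitive (E L : Type*) [Field E] [CharZero E] [Field L] [CharZero L]
    [Normal ℚ L] : MulAction.IsPretransitive (L ≃ₐ[ℚ] L) (E →+* L) := by
  refine ⟨fun φ ψ => ?_⟩
  let φ' : E →ₐ[ℚ] L := RingHom.equivRatAlgHom E L φ
  let ψ' : E →ₐ[ℚ] L := RingHom.equivRatAlgHom E L ψ
  let e : φ'.fieldRange ≃ₐ[ℚ] ψ'.fieldRange :=
    (AlgEquiv.ofInjectiveField φ').symm.trans (AlgEquiv.ofInjectiveField ψ')
  refine ⟨e.liftNormal L, RingHom.ext fun x => ?_⟩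
  rw [emb_smul_apply]
  have h1 := e.liftNormal_commutes L (AlgEquiv.ofInjectiveField φ' x)
  have h2 : e (AlgEquiv.ofInjectiveField φ' x) = AlgEquiv.ofInjectiveField ψ' x := by
    change (AlgEquiv.ofInjectiveField ψ') ((AlgEquiv.ofInjectiveField φ').symm _) = _
    rw [AlgEquiv.symm_apply_apply]
  rw [h2] at h1
  exact h1

variable {E L : Type*} [Field E] [NumberField E] [Field L] [NumberField L] (j : L →+* ℂ)

/-- If all complex embeddings of `E` factor through `L`, the embeddings into `L` and into the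
complex numbers correspond. -/
def embEquiv (h : ∀ ψ : E →+* ℂ, ∃ φ : E →+* L, j.comp φ = ψ) : (E →+* L) ≃ (E →+* ℂ) :=
  Equiv.ofBijective (fun φ => j.comp φ)
    ⟨fun φ φ' hh => RingHom.ext fun x => j.injective (RingHom.congr_fun hh x), h⟩

theorem card_emb (h : ∀ ψ : E →+* ℂ, ∃ φ : E →+* L, j.comp φ = ψ) :
    Fintype.card (E →+* L) = finrank ℚ E := by
  rw [Fintype.card_congr (embEquiv j h), Embeddings.card]

/-- The determinant of the embeddings matrix (with respect to an enumeration `e`). -/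
def dlt (e : Free.ChooseBasisIndex ℤ (𝓞 E) ≃ (E →+* L)) : L :=
  (Matrix.of fun s t => e t (integralBasis E s)).det

theorem dlt_sq (h : ∀ ψ : E →+* ℂ, ∃ φ : E →+* L, j.comp φ = ψ)
    (e : Free.ChooseBasisIndex ℤ (𝓞 E) ≃ (E →+* L)) :
    dlt e ^ 2 = ((discr E : ℤ) : L) := by
  apply j.injective
  rw [map_pow, map_intCast, dlt, RingHom.map_det]
  have h1 := Algebra.discr_eq_det_embeddingsMatrixReindex_pow_two ℚ ℂ (integralBasis E)
    ((e.trans (embEquiv j h)).trans (RingHom.equivRatAlgHom E ℂ))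
  rw [← coe_discr] at h1
  rw [eq_ratCast, Rat.cast_intCast] at h1
  rw [h1]
  rfl

theorem dlt_smul [DecidableEq (E →+* L)] (e : Free.ChooseBasisIndex ℤ (𝓞 E) ≃ (E →+* L))
    (σ : L ≃ₐ[ℚ] L) :
    σ (dlt e) = ((Equiv.Perm.sign (MulAction.toPerm σ : Equiv.Perm (E →+* L)) : ℤ) : L) *
      dlt e := by
  classical
  have h1 : Equiv.Perm.sign (MulAction.toPerm σ : Equiv.Perm (E →+* L)) =
      Equiv.Perm.sign ((e.trans (MulAction.toPerm σ : Equiv.Perm (E →+* L))).trans e.symm) :=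
    (Equiv.Perm.sign_trans_trans_symm _ e).symm
  rw [h1, dlt, ← Matrix.det_permute', ← AlgEquiv.coe_algHom, AlgHom.map_det]
  congr 1
  ext s t
  change σ ((e t) (integralBasis E s)) =
    (e (((e.trans (MulAction.toPerm σ : Equiv.Perm (E →+* L))).trans e.symm) t)) (integralBasis E s)
  simp only [Equiv.trans_apply, Equiv.apply_symm_apply, MulAction.toPerm_apply]
  rfl

theorem isSquare_of_sign {ι : Type*} (E : ι → Type*) [∀ i, Field (E i)] [∀ i, NumberField (E i)]
    [IsGalois ℚ L] [∀ i, DecidableEq (E i →+* L)]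
    (h : ∀ i, ∀ ψ : E i →+* ℂ, ∃ φ : E i →+* L, j.comp φ = ψ) (S : Finset ι)
    (hS : ∀ σ : L ≃ₐ[ℚ] L,
      ∏ i ∈ S, (Equiv.Perm.sign (MulAction.toPerm σ : Equiv.Perm (E i →+* L)) : ℤ) = 1) :
    IsSquare (∏ i ∈ S, discr (E i)) := by
  classical
  have he : ∀ i, Nonempty (Free.ChooseBasisIndex ℤ (𝓞 (E i)) ≃ (E i →+* L)) := by
    intro i
    refine ⟨Fintype.equivOfCardEq ?_⟩
    rw [card_emb j (h i), finrank_eq_card_basis (integralBasis (E i))]
  let e := fun i => Classical.choice (he i)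
  let δ : L := ∏ i ∈ S, dlt (e i)
  have h1 : δ ^ 2 = ((∏ i ∈ S, discr (E i) : ℤ) : L) := by
    rw [← Finset.prod_pow]
    push_cast
    exact Finset.prod_congr rfl fun i _ => dlt_sq j (h i) (e i)
  have h2 : ∀ σ : L ≃ₐ[ℚ] L, σ δ = δ := by
    intro σ
    simp only [δ, map_prod]
    rw [Finset.prod_congr rfl (fun i _ => dlt_smul (e i) σ), Finset.prod_mul_distrib,
      ← Int.cast_prod, hS σ, Int.cast_one, one_mul]
  obtain ⟨x, hx⟩ := (IsGalois.mem_range_algebraMap_iff_fixed (F := ℚ) δ).2 h2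
  rw [← Rat.isSquare_intCast_iff]
  refine ⟨x, ?_⟩
  apply (algebraMap ℚ L).injective
  rw [map_mul, hx, ← pow_two, h1, map_intCast]

end

end Pool.Agent.H204R3.CM
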