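import Mathlib
import Pool.Agent.H204R3.CM.Defs

/-!
# The type condition in terms of coefficients
-/

set_option linter.unusedSectionVars false
set_option linter.unusedVariables false

namespace Pool.Agent.H204R3.CM

open NumberField Module

noncomputable section

/-- Two multilinear maps that agree on a spanning set are equal. -/
theorem multilinear_ext_span {R κ M N : Type*} [CommRing R] [Fintype κ]
    [AddCommGroup M] [Module R M] [AddCommGroup N] [Module R N]
    (g g' : MultilinearMap R (fun _ : κ => M) N) (S : Set M) (hS : Submodule.span R S = ⊤)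
    (h : ∀ v : κ → M, (∀ l, v l ∈ S) → g v = g' v) : g = g' := by
  classical
  have key : ∀ A : Finset κ, ∀ v : κ → M, (∀ l, l ∉ A → v l ∈ S) → g v = g' v := by
    intro A
    induction A using Finset.induction_on with
    | empty => exact fun v hv => h v fun l => hv l (Finset.notMem_empty l)
    | insert a A ha ih =>
      intro v hv
      have h1 : ∀ x : M, g (Function.update v a x) = g' (Function.update v a x) := by
        intro x
        have hx : x ∈ Submodule.span R S := by rw [hS]; trivial
        induction hx using Submodule.span_induction with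
        | mem x hx =>
          refine ih _ fun l hl => ?_
          by_cases hla : l = a
          · subst hla
            rw [Function.update_self]
            exact hx
          · rw [Function.update_of_ne hla]
            exact hv l (by
              rw [Finset.mem_insert, not_or]
              exact ⟨hla, hl⟩)
        | zero => rw [MultilinearMap.map_update_zero, MultilinearMap.map_update_zero]
        | add x y _ _ hx hy =>
          rw [MultilinearMap.map_update_add, MultilinearMap.map_update_add, hx, hy]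
        | smul c x _ hx => rw [MultilinearMap.map_update_smul, MultilinearMap.map_update_smul, hx]
      have h2 := h1 (v a)
      rwa [Function.update_eq_self] at h2
  exact MultilinearMap.ext fun v => key Finset.univ v fun l hl => absurd (Finset.mem_univ l) hl

variable {ι J : Type*} [Fintype J] {E : ι → Type*} [∀ i, Field (E i)] [∀ i, NumberField (E i)]
  (Φ : ∀ i, Set (E i →+* ℂ)) (t : J → ι)

/-- The complex coordinates of the complexified homology. -/
abbrev XX (E : ι → Type*) [∀ i, Field (E i)] (t : J → ι) (L : Type*) [Field L] : Type _ :=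
  Σ j : J, (E (t j) →+* L)

/-- The coordinates of an element of the rational homology. -/
def chi (E : ι → Type*) [∀ i, Field (E i)] (t : J → ι) (L : Type*) [Field L]
    (w : ∀ j, E (t j)) : XX E t L → L := fun x => x.2 (w x.1)

theorem span_chi : Submodule.span ℂ (Set.range (chi E t ℂ)) = ⊤ := by
  classical
  rw [eq_top_iff]
  rintro u -
  -- the part of `u` at one index
  have h1 : ∀ (j : J) (u' : (E (t j) →+* ℂ) → ℂ),
      (fun x : XX E t ℂ => if h : x.1 = j then u' (h ▸ x.2) else 0) ∈
        Submodule.span ℂ (Set.range (chi E t ℂ)) := by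
    intro j u'
    have h2 : u' ∈ Submodule.span ℂ (Set.range (canonicalEmbedding.latticeBasis (E (t j)))) := by
      rw [(canonicalEmbedding.latticeBasis (E (t j))).span_eq]
      trivial
    induction h2 using Submodule.span_induction with
    | mem x hx =>
      obtain ⟨s, rfl⟩ := hx
      refine Submodule.subset_span ⟨Pi.single j (integralBasis (E (t j)) s), ?_⟩
      funext x
      obtain ⟨j', φ⟩ := x
      by_cases h : j' = j
      · subst h
        simp only [chi, Pi.single_eq_same, dif_pos, canonicalEmbedding.latticeBasis_apply,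
          canonicalEmbedding.apply_at]
      · simp only [chi, h, dif_neg, not_false_eq_true, Pi.single_eq_of_ne h, map_zero]
    | zero =>
      have h3 : (fun x : XX E t ℂ => if h : x.1 = j then (0 : (E (t j) →+* ℂ) → ℂ) (h ▸ x.2)
          else 0) = 0 := by
        funext x
        by_cases h : x.1 = j <;> simp [h]
      rw [h3]
      exact Submodule.zero_mem _
    | add x y _ _ hx hy =>
      convert Submodule.add_mem _ hx hy using 1
      funext z
      by_cases h : z.1 = j <;> simp [h]
    | smul c x _ hx =>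
      convert Submodule.smul_mem _ c hx using 1
      funext z
      by_cases h : z.1 = j <;> simp [h]
  have h3 : u = ∑ j, (fun x : XX E t ℂ =>
      if h : x.1 = j then (fun φ => u ⟨j, φ⟩) (h ▸ x.2) else 0) := by
    funext x
    obtain ⟨j', φ⟩ := x
    rw [Finset.sum_apply, Finset.sum_eq_single j']
    · simp
    · intro b _ hb
      simp [Ne.symm hb]
    · intro h
      exact absurd (Finset.mem_univ _) h
  rw [h3]
  exact Submodule.sum_mem _ fun j _ => h1 j (fun φ => u ⟨j, φ⟩)

variable {Φ} (hΦ : ∀ i, IsCMType (Φ i))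

include hΦ in
theorem conj_mem {i : ι} {φ : E i →+* ℂ} (h : φ ∉ Φ i) :
    ComplexEmbedding.conjugate φ ∈ Φ i := by
  by_contra h2
  exact h ((hΦ i φ).2 h2)

open Classical in
/-- The real linear embedding of the tangent space into the complexified homology. -/
def theta : Tan Φ t →ₗ[ℝ] (XX E t ℂ → ℂ) where
  toFun u := fun x => if h : x.2 ∈ Φ (t x.1) then u x.1 ⟨x.2, h⟩ else
    starRingEnd ℂ (u x.1 ⟨ComplexEmbedding.conjugate x.2, conj_mem hΦ h⟩)
  map_add' u v := by
    funext x
    by_cases h : x.2 ∈ Φ (t x.1) <;> simp [h]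
  map_smul' a u := by
    funext x
    by_cases h : x.2 ∈ Φ (t x.1) <;> simp [h]

theorem theta_pos (u : Tan Φ t) (j : J) (φ : E (t j) →+* ℂ) (h : φ ∈ Φ (t j)) :
    theta t hΦ u ⟨j, φ⟩ = u j ⟨φ, h⟩ := by
  simp [theta, h]

theorem theta_neg (u : Tan Φ t) (j : J) (φ : E (t j) →+* ℂ) (h : φ ∉ Φ (t j)) :
    theta t hΦ u ⟨j, φ⟩ = starRingEnd ℂ (u j ⟨ComplexEmbedding.conjugate φ, conj_mem hΦ h⟩) := by
  simp [theta, h]

theorem theta_per (w : ∀ j, E (t j)) : theta t hΦ (per Φ t w) = chi E t ℂ w := by
  funext x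
  obtain ⟨j, φ⟩ := x
  by_cases h : φ ∈ Φ (t j)
  · rw [theta_pos t hΦ _ j φ h]
    rfl
  · rw [theta_neg t hΦ _ j φ h]
    change starRingEnd ℂ ((ComplexEmbedding.conjugate φ) (w j)) = φ (w j)
    rw [ComplexEmbedding.conjugate_coe_eq, Complex.conj_conj]

theorem theta_conj (u : Tan Φ t) (j : J) (φ : E (t j) →+* ℂ) :
    theta t hΦ u ⟨j, ComplexEmbedding.conjugate φ⟩ = starRingEnd ℂ (theta t hΦ u ⟨j, φ⟩) := by
  by_cases h : φ ∈ Φ (t j)
  · have h2 : ComplexEmbedding.conjugate φ ∉ Φ (t j) := (hΦ _ φ).1 h
    rw [theta_pos t hΦ _ j φ h, theta_neg t hΦ _ j _ h2]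
    congr 2
    apply Subtype.ext
    exact star_involutive φ
  · have h2 := conj_mem hΦ h
    rw [theta_neg t hΦ _ j φ h, theta_pos t hΦ _ j _ h2, Complex.conj_conj]

theorem theta_injective : Function.Injective (theta t hΦ) := by
  intro u v h
  funext j φ
  have h1 := congrFun h ⟨j, φ.1⟩
  rw [theta_pos t hΦ _ j φ.1 φ.2, theta_pos t hΦ _ j φ.1 φ.2] at h1
  exact h1

include hΦ in
theorem span_per : Submodule.span ℝ (Set.range (per Φ t)) = ⊤ := by
  rw [eq_top_iff]
  rintro u -
  have h1 : ∀ w ∈ Submodule.span ℂ (Set.range (chi E t ℂ)),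
      ∃ x ∈ Submodule.span ℝ (Set.range (per Φ t)), ∃ y ∈ Submodule.span ℝ (Set.range (per Φ t)),
        w = theta t hΦ x + Complex.I • theta t hΦ y := by
    intro w hw
    induction hw using Submodule.span_induction with
    | mem x hx =>
      obtain ⟨w, rfl⟩ := hx
      refine ⟨per Φ t w, Submodule.subset_span ⟨w, rfl⟩, 0, Submodule.zero_mem _, ?_⟩
      rw [theta_per, map_zero, smul_zero, add_zero]
    | zero => exact ⟨0, Submodule.zero_mem _, 0, Submodule.zero_mem _, by simp⟩
    | add x y _ _ hx hy =>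
      obtain ⟨a, ha, b, hb, rfl⟩ := hx
      obtain ⟨a', ha', b', hb', rfl⟩ := hy
      refine ⟨a + a', Submodule.add_mem _ ha ha', b + b', Submodule.add_mem _ hb hb', ?_⟩
      rw [map_add, map_add, smul_add]
      abel
    | smul c x _ hx =>
      obtain ⟨a, ha, b, hb, rfl⟩ := hx
      refine ⟨c.re • a - c.im • b, Submodule.sub_mem _ (Submodule.smul_mem _ _ ha)
        (Submodule.smul_mem _ _ hb), c.im • a + c.re • b,
        Submodule.add_mem _ (Submodule.smul_mem _ _ ha) (Submodule.smul_mem _ _ hb), ?_⟩
      funext z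
      rw [map_sub, map_add, map_smul, map_smul, map_smul, map_smul]
      simp only [Pi.add_apply, Pi.sub_apply, Pi.smul_apply, smul_eq_mul, Complex.real_smul]
      have h2 : c = c.re + c.im * Complex.I := (Complex.re_add_im c).symm
      have h3 : Complex.I * Complex.I = -1 := Complex.I_mul_I
      conv_lhs => rw [h2]
      linear_combination (c.im : ℂ) * theta t hΦ b z * h3
  obtain ⟨x, hx, y, hy, hxy⟩ := h1 (theta t hΦ u) (by rw [span_chi]; trivial)
  have h2 : theta t hΦ y = 0 := by
    funext z
    obtain ⟨j, φ⟩ := z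
    have h3 := congrFun hxy ⟨j, ComplexEmbedding.conjugate φ⟩
    have h4 := congrFun hxy ⟨j, φ⟩
    simp only [Pi.add_apply, Pi.smul_apply, smul_eq_mul, theta_conj] at h3 h4
    rw [h4, map_add, map_mul, Complex.conj_I] at h3
    have h5 : Complex.I * starRingEnd ℂ (theta t hΦ y ⟨j, φ⟩) = 0 := by linear_combination -h3 / 2
    have h6 := (mul_eq_zero.1 h5).resolve_left Complex.I_ne_zero
    exact (map_eq_zero _).1 h6
  rw [h2, smul_zero, add_zero] at hxy
  rw [theta_injective t hΦ hxy]
  exact hx

variable {κ : Type*} [Fintype κ]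

/-- The complex multilinear form with given coefficients. -/
def formOf [DecidableEq κ] (c : (κ → XX E t ℂ) → ℂ) :
    MultilinearMap ℂ (fun _ : κ => XX E t ℂ → ℂ) ℂ :=
  ∑ I : κ → XX E t ℂ, c I • (MultilinearMap.mkPiAlgebra ℂ κ ℂ).compLinearMap
    (fun l => LinearMap.proj (I l))

theorem formOf_apply [DecidableEq κ] (c : (κ → XX E t ℂ) → ℂ) (u : κ → XX E t ℂ → ℂ) :
    formOf t c u = ∑ I : κ → XX E t ℂ, c I * ∏ l, u l (I l) := by
  unfold formOf
  simp only [MultilinearMap.coe_sum, Finset.sum_apply, MultilinearMap.coe_smul, Pi.smul_apply, MultilinearMap.compLinearMap_apply,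
    MultilinearMap.mkPiAlgebra_apply, LinearMap.proj_apply, smul_eq_mul]

theorem formOf_single [DecidableEq κ] (c : (κ → XX E t ℂ) → ℂ) (I : κ → XX E t ℂ)
    [DecidableEq (XX E t ℂ)] (d : κ → ℂ) :
    formOf t c (fun l => Pi.single (I l) (d l)) = c I * ∏ l, d l := by
  classical
  rw [formOf_apply, Finset.sum_eq_single I]
  · simp
  · intro I' _ h
    obtain ⟨l, hl⟩ := Function.ne_iff.1 h
    rw [Finset.prod_eq_zero (Finset.mem_univ l), mul_zero]
    exact Pi.single_eq_of_ne hl _
  · intro h
    exact absurd (Finset.mem_univ _) h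

/-- The multiplication by `z` on the tangent space, in the complex coordinates. -/
def dz (Φ : ∀ i, Set (E i →+* ℂ)) (z : ℂ) (x : XX E t ℂ) : ℂ := by
  classical
  exact if x.2 ∈ Φ (t x.1) then z else starRingEnd ℂ z

theorem theta_smul (z : ℂ) (u : Tan Φ t) :
    theta t hΦ (z • u) = fun x => dz t Φ z x * theta t hΦ u x := by
  funext x
  obtain ⟨j, φ⟩ := x
  by_cases h : φ ∈ Φ (t j)
  · rw [theta_pos t hΦ _ j φ h, theta_pos t hΦ _ j φ h]
    simp only [dz, h, if_true, Pi.smul_apply, smul_eq_mul]
  · rw [theta_neg t hΦ _ j φ h, theta_neg t hΦ _ j φ h]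
    simp only [dz, h, if_false, Pi.smul_apply, smul_eq_mul, map_mul]

open Classical in
include hΦ in
/-- The coefficients of a form of type `(d, d)`. -/
theorem balanced_of_type [DecidableEq κ] (c : (κ → XX E t ℂ) → ℂ)
    (ψ : MultilinearMap ℝ (fun _ : κ => Tan Φ t) ℝ)
    (h1 : ∀ v : κ → (∀ j, E (t j)),
      (ψ (fun l => per Φ t (v l)) : ℂ) = ∑ I : κ → XX E t ℂ, c I * ∏ l, chi E t ℂ (v l) (I l))
    (h2 : ∀ z : ℂ, ‖z‖ = 1 → ∀ u : κ → Tan Φ t, ψ (fun l => z • u l) = ψ u)
    (I : κ → XX E t ℂ) (hI : c I ≠ 0) :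
    ∑ l, (if (I l).2 ∈ Φ (t (I l).1) then (1 : ℤ) else -1) = 0 := by
  let F := formOf t c
  -- the real multilinear maps on the tangent space agree
  let G1 : MultilinearMap ℝ (fun _ : κ => Tan Φ t) ℂ := Complex.ofRealCLM.toLinearMap.compMultilinearMap ψ
  let G2 : MultilinearMap ℝ (fun _ : κ => Tan Φ t) ℂ :=
    (F.restrictScalars ℝ).compLinearMap (fun _ => theta t hΦ)
  have hG : G1 = G2 := by
    refine multilinear_ext_span _ _ _ (span_per t hΦ) ?_
    intro v hv
    choose w hw using hv
    have hv' : v = fun l => per Φ t (w l) := funext fun l => (hw l).symm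
    rw [hv']
    change ((ψ (fun l => per Φ t (w l)) : ℝ) : ℂ) = formOf t c (fun l => theta t hΦ (per Φ t (w l)))
    rw [h1, formOf_apply]
    simp only [theta_per]
  have hG' : ∀ u : κ → Tan Φ t, ((ψ u : ℝ) : ℂ) = F (fun l => theta t hΦ (u l)) := by
    intro u
    exact DFunLike.congr_fun hG u
  by_contra hne
  set e : ℤ := ∑ l, (if (I l).2 ∈ Φ (t (I l).1) then (1 : ℤ) else -1) with he
  -- the complex number `z`
  let z : ℂ := Complex.exp ((Real.pi / e : ℝ) * Complex.I)
  have hz : ‖z‖ = 1 := Complex.norm_exp_ofReal_mul_I _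
  let D : (XX E t ℂ → ℂ) →ₗ[ℂ] (XX E t ℂ → ℂ) :=
    { toFun := fun w x => dz t Φ z x * w x
      map_add' := fun a b => by funext x; simp only [Pi.add_apply, mul_add]
      map_smul' := fun a b => by
        funext x
        simp only [Pi.smul_apply, smul_eq_mul, RingHom.id_apply]
        ring }
  have hF : F.compLinearMap (fun _ => D) = F := by
    refine multilinear_ext_span _ _ _ (span_chi t) ?_
    intro v hv
    choose w hw using hv
    have hv' : v = fun l => theta t hΦ (per Φ t (w l)) :=
      funext fun l => by rw [theta_per, hw l]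
    rw [hv', MultilinearMap.compLinearMap_apply]
    have h3 := h2 z hz (fun l => per Φ t (w l))
    have h4 := hG' (fun l => z • per Φ t (w l))
    rw [h3, hG'] at h4
    rw [h4]
    congr 1
    funext l
    exact (theta_smul t hΦ z _).symm
  have h3 := DFunLike.congr_fun hF (fun l => Pi.single (I l) (1 : ℂ))
  rw [MultilinearMap.compLinearMap_apply] at h3
  have h4 : (fun l => D (Pi.single (I l) (1 : ℂ))) = fun l => Pi.single (I l) (dz t Φ z (I l)) := by
    funext l x
    change dz t Φ z x * (Pi.single (I l) (1 : ℂ) : XX E t ℂ → ℂ) x = _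
    by_cases h : x = I l
    · subst h
      rw [Pi.single_eq_same, Pi.single_eq_same, mul_one]
    · rw [Pi.single_eq_of_ne h, Pi.single_eq_of_ne h, mul_zero]
  rw [h4] at h3
  simp only [F] at h3
  rw [formOf_single, formOf_single, Finset.prod_const_one, mul_one] at h3
  have h5 : ∏ l, dz t Φ z (I l) = 1 := mul_left_cancel₀ hI (by rw [h3, mul_one])
  have h6 : ∏ l, dz t Φ z (I l) = Complex.exp ((Real.pi / e : ℝ) * Complex.I * e) := by
    have h7 : ∀ l, dz t Φ z (I l) = Complex.exp ((Real.pi / e : ℝ) * Complex.I *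
        ((if (I l).2 ∈ Φ (t (I l).1) then (1 : ℤ) else -1 : ℤ) : ℂ)) := by
      intro l
      by_cases h : (I l).2 ∈ Φ (t (I l).1)
      · simp only [dz, h, if_true, Int.cast_one, mul_one, z]
      · simp only [dz, h, if_false, z]
        rw [← Complex.exp_conj, map_mul, Complex.conj_ofReal, Complex.conj_I]
        push_cast
        congr 1
        ring
    rw [Finset.prod_congr rfl (fun l _ => h7 l), ← Complex.exp_sum, ← Finset.mul_sum]
    congr 2
    rw [he]
    push_cast
    rfl
  rw [h6] at h5
  have h7 : ((Real.pi / e : ℝ) : ℂ) * Complex.I * e = Real.pi * Complex.I := by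
    have : (e : ℂ) ≠ 0 := by exact_mod_cast hne
    push_cast
    field_simp
  rw [h7, Complex.exp_pi_mul_I] at h5
  norm_num at h5

end

end Pool.Agent.H204R3.CM
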