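import Mathlib
import Pool.Agent.H204R3.CM.Coef
import Pool.Agent.H925R2.Core

/-!
# The bilinear Hodge forms
-/

set_option linter.unusedSectionVars false
set_option linter.unusedVariables false

namespace Pool.Agent.H204R3.CM

open NumberField Module

noncomputable section

/-- The Hodge condition for multilinear forms. -/
def HodgeMul {W T : Type*} [AddCommGroup W] [Module ℚ W] [AddCommGroup T] [Module ℂ T]
    (per : W →+ T) {κ : Type*} (f : MultilinearMap ℚ (fun _ : κ => W) ℚ) : Prop :=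
  ∃ ψ : MultilinearMap ℝ (fun _ : κ => T) ℝ,
    (∀ v : κ → W, ψ (fun l => per (v l)) = f v) ∧
      ∀ z : ℂ, ‖z‖ = 1 → ∀ u : κ → T, ψ (fun l => z • u l) = ψ u

theorem HodgeMul.alternatization {W T : Type*} [AddCommGroup W] [Module ℚ W] [AddCommGroup T]
    [Module ℂ T] {per : W →+ T} {κ : Type*} [Fintype κ] [DecidableEq κ]
    {f : MultilinearMap ℚ (fun _ : κ => W) ℚ} (hf : HodgeMul per f) :
    IsHodge per (MultilinearMap.alternatization f) := by
  obtain ⟨ψ, h1, h2⟩ := hf
  refine ⟨(MultilinearMap.alternatization ψ).toMultilinearMap, ?_, ?_⟩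
  · intro v
    change MultilinearMap.alternatization ψ _ = _
    rw [MultilinearMap.alternatization_apply, MultilinearMap.alternatization_apply]
    push_cast
    refine Finset.sum_congr rfl fun σ _ => ?_
    rw [Units.smul_def, Units.smul_def, zsmul_eq_mul, zsmul_eq_mul]
    push_cast
    congr 1
    exact h1 (fun l => v (σ l))
  · intro z hz u
    change MultilinearMap.alternatization ψ _ = MultilinearMap.alternatization ψ _
    rw [MultilinearMap.alternatization_apply, MultilinearMap.alternatization_apply]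
    refine Finset.sum_congr rfl fun σ _ => ?_
    congr 1
    exact h2 z hz (fun l => u (σ l))

variable {F : Type*} [Field F] [NumberField F] [IsCMField F] {Φ : Set (F →+* ℂ)}
  (hΦ : IsCMType Φ)
  {W T : Type*} [AddCommGroup W] [Module ℚ W] [AddCommGroup T] [Module ℂ T] (per : W →+ T)
  (A A' : W →ₗ[ℚ] F) (At At' : T →ₗ[ℂ] (Φ → ℂ))
  (hA : ∀ w φ, At (per w) φ = φ.1 (A w)) (hA' : ∀ w φ, At' (per w) φ = φ.1 (A' w))

/-- The rational bilinear form `(v, w) ↦ Tr (α v conj w)`. -/
def bil (α : F) : MultilinearMap ℚ (fun _ : Fin 2 => W) ℚ :=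
  (Algebra.traceForm ℚ F α).compMultilinearMap ((MultilinearMap.mkPiAlgebra ℚ (Fin 2) F).compLinearMap
    ![A, (((IsCMField.complexConj F).restrictScalars ℚ).toLinearMap).comp A'])

theorem bil_apply (α : F) (v : Fin 2 → W) :
    bil A A' α v = Algebra.trace ℚ F (α * (A (v 0) * IsCMField.complexConj F (A' (v 1)))) := by
  unfold bil
  rw [LinearMap.compMultilinearMap_apply, MultilinearMap.compLinearMap_apply,
    MultilinearMap.mkPiAlgebra_apply, Fin.prod_univ_two, Algebra.traceForm_apply]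
  rfl

/-- Its real extension. -/
def rbil [Fintype Φ] (α : F) : MultilinearMap ℝ (fun _ : Fin 2 => T) ℝ :=
  ∑ φ : Φ, (2 : ℝ) • (Complex.reLm.comp (LinearMap.mulLeft ℝ (φ.1 α))).compMultilinearMap
    ((MultilinearMap.mkPiAlgebra ℝ (Fin 2) ℂ).compLinearMap
      ![(LinearMap.proj φ).comp (At.restrictScalars ℝ),
        (Complex.conjAe.toLinearMap).comp ((LinearMap.proj φ).comp (At'.restrictScalars ℝ))])

theorem rbil_apply [Fintype Φ] (α : F) (u : Fin 2 → T) :
    rbil At At' α u = ∑ φ : Φ, 2 * (φ.1 α * (At (u 0) φ * starRingEnd ℂ (At' (u 1) φ))).re := by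
  unfold rbil
  rw [MultilinearMap.sum_apply]
  refine Finset.sum_congr rfl fun φ _ => ?_
  rw [MultilinearMap.smul_apply, LinearMap.compMultilinearMap_apply,
    MultilinearMap.compLinearMap_apply, MultilinearMap.mkPiAlgebra_apply, Fin.prod_univ_two]
  rfl

open Classical in
include hΦ in
theorem trace_re (x : F) :
    ((Algebra.trace ℚ F x : ℚ) : ℝ) = ∑ φ : Φ, 2 * (φ.1 x).re := by
  have h1 := trace_eq_sum_embeddings (K := ℚ) (L := F) ℂ (x := x)
  rw [eq_ratCast] at h1
  have h2 : ((Algebra.trace ℚ F x : ℚ) : ℂ) = ∑ φ : F →+* ℂ, φ x := by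
    rw [h1]
    exact (Fintype.sum_equiv (RingHom.equivRatAlgHom F ℂ) _ _ (fun φ => rfl)).symm
  have h3 := congrArg Complex.re h2
  rw [Complex.re_sum] at h3
  have h4 : ((Algebra.trace ℚ F x : ℚ) : ℂ).re = ((Algebra.trace ℚ F x : ℚ) : ℝ) := by
    rw [← Complex.ofReal_ratCast, Complex.ofReal_re]
  rw [h4] at h3
  rw [h3]
  have h5 : Pool.Agent.H925R2.IsHalf (R := F →+* ℂ) ComplexEmbedding.conjugate Φ.toFinset := by
    intro φ
    rw [Set.mem_toFinset, Set.mem_toFinset]
    exact hΦ φ
  rw [h5.sum_symm (fun φ => star_involutive φ) (fun φ : F →+* ℂ => (φ x).re) (fun φ => by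
    rw [ComplexEmbedding.conjugate_coe_eq, Complex.conj_re])]
  rw [← Finset.sum_add_distrib, ← Finset.sum_coe_sort]
  refine Fintype.sum_equiv (Equiv.subtypeEquivRight (fun φ => by rw [Set.mem_toFinset])) _ _ ?_
  intro φ
  change (φ.1 x).re + (φ.1 x).re = 2 * (φ.1 x).re
  ring

include hΦ hA hA' in
theorem hodge_bil (α : F) : HodgeMul per (bil A A' α) := by
  classical
  refine ⟨rbil At At' α, fun v => ?_, fun z hz u => ?_⟩
  · rw [rbil_apply, bil_apply, trace_re hΦ]
    refine Finset.sum_congr rfl fun φ _ => ?_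
    rw [hA, hA', map_mul, map_mul, IsCMField.complexEmbedding_complexConj]
  · rw [rbil_apply, rbil_apply]
    refine Finset.sum_congr rfl fun φ _ => ?_
    have h1 : z * starRingEnd ℂ z = 1 := by
      rw [Complex.mul_conj, Complex.normSq_eq_norm_sq, hz]
      norm_num
    have h2 : At (z • u 0) φ * starRingEnd ℂ (At' (z • u 1) φ) =
        At (u 0) φ * starRingEnd ℂ (At' (u 1) φ) := by
      rw [map_smul, map_smul, Pi.smul_apply, Pi.smul_apply, smul_eq_mul, smul_eq_mul, map_mul]
      linear_combination (At (u 0) φ * starRingEnd ℂ (At' (u 1) φ)) * h1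
    change 2 * (φ.1 α * (At (z • u 0) φ * starRingEnd ℂ (At' (z • u 1) φ))).re = _
    rw [h2]

include hΦ hA hA' in
theorem pair_expand {L : Type*} [Field L] [NumberField L] (φ : F →+* L) :
    ∃ (n : ℕ) (a : Fin n → L) (B : Fin n → MultilinearMap ℚ (fun _ : Fin 2 => W) ℚ),
      (∀ r, HodgeMul per (B r)) ∧ ∀ v : Fin 2 → W,
        φ (A (v 0)) * φ (IsCMField.complexConj F (A' (v 1))) = ∑ r, a r * ((B r v : ℚ) : L) := by
  classical
  have hB := traceForm_nondegenerate ℚ F
  let b := Module.finBasis ℚ F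
  let b' := (Algebra.traceForm ℚ F).dualBasis hB b
  refine ⟨finrank ℚ F, fun r => φ (b' r), fun r => bil A A' (b r),
    fun r => hodge_bil hΦ per A A' At At' hA hA' (b r), fun v => ?_⟩
  rw [← map_mul]
  set x := A (v 0) * IsCMField.complexConj F (A' (v 1)) with hx
  have h1 : x = ∑ r, (b'.repr x r) • b' r := (b'.sum_repr x).symm
  have h2 : ∀ r, b'.repr x r = bil A A' (b r) v := by
    intro r
    rw [bil_apply, ← hx]
    have h3 := LinearMap.BilinForm.dualBasis_repr_apply (B := Algebra.traceForm ℚ F) hB b x r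
    rw [h3, Algebra.traceForm_apply, mul_comm]
  conv_lhs => rw [h1]
  rw [map_sum]
  refine Finset.sum_congr rfl fun r _ => ?_
  rw [h2 r, Rat.smul_def, map_mul, map_ratCast, mul_comm]

end

end Pool.Agent.H204R3.CM
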