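import Mathlib
import Pool.Agent.H204R3.CM.Main
import Pool.Agent.H204R3.CM.CoreTwo
import Pool.Agent.H204R3.CM.Sign

/-!
# Nondegeneracy from discriminants
-/

set_option linter.unusedSectionVars false
set_option linter.unusedVariables false

namespace Pool.Agent.H204R3.CM

open NumberField Module Equiv

noncomputable section

/-- A finite Galois extension of the rational numbers through which all complex embeddings of
finitely many number fields factor. -/
theorem exists_galois {ι : Type*} [Fintype ι] (E : ι → Type*) [∀ i, Field (E i)]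
    [∀ i, NumberField (E i)] :
    ∃ (L : IntermediateField ℚ (AlgebraicClosure ℚ)) (_ : NumberField L) (_ : IsGalois ℚ L)
      (j : L →+* ℂ), ∀ i, ∀ ψ : E i →+* ℂ, ∃ φ : E i →+* L, j.comp φ = ψ := by
  classical
  have _ : Algebra.IsAlgebraic ℚ (AlgebraicClosure ℚ) := AlgebraicClosure.isAlgebraic ℚ
  have _ : IsAlgClosure ℚ (AlgebraicClosure ℚ) := ⟨inferInstance, inferInstance⟩
  have _ : Normal ℚ (AlgebraicClosure ℚ) := IsAlgClosure.normal ℚ (AlgebraicClosure ℚ)
  let j0 : (AlgebraicClosure ℚ) →ₐ[ℚ] ℂ := IsAlgClosed.lift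
  let L : IntermediateField ℚ (AlgebraicClosure ℚ) := ⨆ i, IntermediateField.normalClosure ℚ (E i) (AlgebraicClosure ℚ)
  have _ : FiniteDimensional ℚ L := IntermediateField.finiteDimensional_iSup_of_finite
  have _ : Normal ℚ L := IntermediateField.normal_iSup (h := fun i => normalClosure.normal ℚ (E i) (AlgebraicClosure ℚ))
  have hNF : NumberField L := NumberField.mk
  refine ⟨L, hNF, ⟨⟩, (j0 : (AlgebraicClosure ℚ) →+* ℂ).comp (algebraMap L (AlgebraicClosure ℚ)), fun i ψ => ?_⟩
  have hinj : Function.Injective (fun φ : E i →+* (AlgebraicClosure ℚ) => (j0 : (AlgebraicClosure ℚ) →+* ℂ).comp φ) := by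
    intro φ φ' h
    ext x
    exact j0.injective (RingHom.congr_fun h x)
  have hbij : Function.Bijective (fun φ : E i →+* (AlgebraicClosure ℚ) => (j0 : (AlgebraicClosure ℚ) →+* ℂ).comp φ) := by
    rw [Fintype.bijective_iff_injective_and_card]
    exact ⟨hinj, by rw [Embeddings.card, Embeddings.card]⟩
  obtain ⟨φ, hφ⟩ := hbij.2 ψ
  let φ' : E i →ₐ[ℚ] (AlgebraicClosure ℚ) := RingHom.equivRatAlgHom (E i) (AlgebraicClosure ℚ) φ
  have hle : φ'.fieldRange ≤ L :=
    (AlgHom.fieldRange_le_normalClosure φ').trans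
      (le_iSup (fun i => IntermediateField.normalClosure ℚ (E i) (AlgebraicClosure ℚ)) i)
  let φL : E i →+* L :=
    { toFun := fun x => ⟨φ x, hle ⟨x, rfl⟩⟩
      map_one' := Subtype.ext (map_one φ)
      map_mul' := fun a b => Subtype.ext (map_mul φ a b)
      map_zero' := Subtype.ext (map_zero φ)
      map_add' := fun a b => Subtype.ext (map_add φ a b) }
  refine ⟨φL, ?_⟩
  rw [← hφ]
  rfl

theorem nondeg_of_disc {ι : Type*} [Fintype ι] {E : ι → Type*} [∀ i, Field (E i)]
    [∀ i, NumberField (E i)] [∀ i, IsCMField (E i)]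
    {L : Type*} [Field L] [NumberField L] [IsGalois ℚ L]
    {Φ : ∀ i, Set (E i →+* ℂ)} (hΦ : ∀ i, IsCMType (Φ i)) (j : L →+* ℂ)
    (h : ∀ i, ∀ ψ : E i →+* ℂ, ∃ φ : E i →+* L, j.comp φ = ψ)
    (k : ι → ℕ) (hdeg : ∀ i, finrank ℚ (E i) = 2 ^ (k i + 1))
    (hdisc : ∀ S : Finset ι, S.Nonempty → ¬ IsSquare (∏ i ∈ S, discr (E i))) :
    Nondeg Φ j := by
  classical
  intro c hc hrel
  let ΦL : ∀ i, Finset (E i →+* L) := fun i => Finset.univ.filter (fun φ => j.comp φ ∈ Φ i)
  have hmem : ∀ i φ, φ ∈ ΦL i ↔ j.comp φ ∈ Φ i := fun i φ => by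
    simp only [ΦL, Finset.mem_filter, Finset.mem_univ, true_and]
  have hhalf : ∀ i, Pool.Agent.H925R2.IsHalf (R := E i →+* L) cbar (ΦL i) := by
    intro i φ
    rw [hmem, hmem, comp_cbar]
    exact hΦ i _
  refine core_two (G := L ≃ₐ[ℚ] L) (fun i => E i →+* L) (fun i => cbar)
    (fun i φ => cbar_cbar φ) (fun i φ => cbar_ne φ) (fun g i φ => rfl) k (fun i => ?_) ΦL hhalf ?_
    c hc ?_
  · rw [card_emb j (h i), hdeg i, pow_succ, mul_comm]
  · intro S hS
    by_contra hall
    push Not at hall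
    apply hdisc S hS
    apply isSquare_of_sign j E h S
    intro σ
    have h1 := hall σ
    rw [Nat.not_odd_iff_even] at h1
    have h2 : ∀ i ∈ S, (Equiv.Perm.sign (MulAction.toPerm σ : Equiv.Perm (E i →+* L)) : ℤ) =
        (-1) ^ ((ΦL i).filter (fun φ => σ • φ ∉ ΦL i)).card := by
      intro i _
      exact sign_of_half (fun φ => cbar_cbar φ) (ΦL i) (hhalf i) (MulAction.toPerm σ)
        (fun φ => rfl)
    rw [Finset.prod_congr rfl h2, Finset.prod_pow_eq_pow_sum, h1.neg_one_pow]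
  · intro σ
    have h1 := hrel σ
    rw [← h1]
    refine Finset.sum_congr rfl fun i _ => Finset.sum_congr rfl fun φ _ => ?_
    congr 1
    simp only [hmem]

end

end Pool.Agent.H204R3.CM
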